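import Mathlib
import Pool.Agent.Q246.Pencil

/-!
# The theorem of Lindemann and Weierstrass over a field of finite transcendence degree

For `MP_4aec10_nt.RelativeZeroOneLaw`.
-/

set_option autoImplicit false

namespace Pool.Agent.Q246.RZ

open Pool.Agent.W252 Pool.Agent.W669.Gel Pool.Agent.TH813.Core Pool.Agent.TH813.Rank Module
open Pool.Agent.Q246.Pencil (exists_dlog finrank_le_of_surj rank_domRestrict)

/-- the logarithmic derivatives on `W` -/
noncomputable def res (W : Submodule ℚ ℂ) : Derivation ℚ ℂ ℂ →ₗ[ℂ] (W →ₗ[ℚ] ℂ) where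
  toFun := fun D => (dl D).domRestrict W
  map_add' := fun D D' => by
    ext x
    exact dlog_add_der D D' x
  map_smul' := fun c D => by
    ext x
    exact dlog_smul_der c D x

theorem res_apply (W : Submodule ℚ ℂ) (D : Derivation ℚ ℂ ℂ) (x : W) : res W D x = dlog D x := rfl

theorem fr_hom (W : Submodule ℚ ℂ) [FiniteDimensional ℚ W] :
    finrank ℂ (W →ₗ[ℚ] ℂ) = finrank ℚ W := by
  rw [Module.finrank_linearMap, finrank_self, mul_one]

instance (W : Submodule ℚ ℂ) [FiniteDimensional ℚ W] : FiniteDimensional ℂ (W →ₗ[ℚ] ℂ) :=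
  inferInstance

theorem res_surj (W : Submodule ℚ ℂ) (hW : ∀ x ∈ W, IsAlgebraic ℚ x) :
    Function.Surjective (res W) := by
  intro l
  obtain ⟨l', hl'⟩ := LinearMap.exists_extend l
  obtain ⟨D, hD⟩ := exists_dlog l'
  refine ⟨D, LinearMap.ext fun x => ?_⟩
  rw [res_apply, hD x (hW x x.2), ← hl']
  rfl

section

variable (G : Finset ℂ) (M : Submodule ℂ (Derivation ℚ ℂ ℂ))
  (hM : ∀ D : Derivation ℚ ℂ ℂ, (∀ x ∈ G, D x = 0) → D ∈ M)

/-- the rank of the logarithmic derivatives on `W` -/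
noncomputable def rk (W : Submodule ℚ ℂ) : ℕ := finrank ℂ (M.map (res W))

theorem rk_le (W : Submodule ℚ ℂ) [FiniteDimensional ℚ W] : rk M W ≤ finrank ℚ W := by
  rw [← fr_hom W]
  exact Submodule.finrank_le _

include hM in
theorem bound (W : Submodule ℚ ℂ) [FiniteDimensional ℚ W] (hW : ∀ x ∈ W, IsAlgebraic ℚ x) :
    finrank ℚ W ≤ rk M W + G.card := by
  classical
  let g : Derivation ℚ ℂ ℂ →ₗ[ℂ] (G → ℂ) :=
    { toFun := fun D x => D x
      map_add' := fun _ _ => rfl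
      map_smul' := fun _ _ => rfl }
  let f := (M.map (res W)).mkQ ∘ₗ res W
  have h1 : LinearMap.ker g ≤ LinearMap.ker f := by
    intro D hD
    rw [LinearMap.mem_ker] at hD ⊢
    change (M.map (res W)).mkQ (res W D) = 0
    rw [Submodule.mkQ_apply, Submodule.Quotient.mk_eq_zero]
    exact ⟨D, hM D (fun x hx => congrFun hD ⟨x, hx⟩), rfl⟩
  have h2 := finrank_range_le g f h1
  have h3 : LinearMap.range f = ⊤ := by
    rw [LinearMap.range_eq_top]
    exact (Submodule.mkQ_surjective _).comp (res_surj W hW)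
  rw [h3, finrank_top] at h2
  have h4 := Submodule.finrank_quotient_add_finrank (M.map (res W))
  have h5 : finrank ℂ (LinearMap.range g) ≤ G.card := by
    have := Submodule.finrank_le (LinearMap.range g)
    rwa [finrank_fintype_fun_eq_card, Fintype.card_coe] at this
  rw [fr_hom] at h4
  unfold rk
  omega

include hM in
theorem exists_max : ∃ V : Submodule ℚ ℂ, FiniteDimensional ℚ V ∧ (∀ x ∈ V, IsAlgebraic ℚ x) ∧
    ∀ W : Submodule ℚ ℂ, FiniteDimensional ℚ W → (∀ x ∈ W, IsAlgebraic ℚ x) →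
      finrank ℚ W + rk M V ≤ finrank ℚ V + rk M W := by
  classical
  let s : Set ℕ := {δ | ∃ W : Submodule ℚ ℂ, FiniteDimensional ℚ W ∧
    (∀ x ∈ W, IsAlgebraic ℚ x) ∧ δ = finrank ℚ W - rk M W}
  have hne : s.Nonempty := by
    refine ⟨_, ⊥, inferInstance, fun x hx => ?_, rfl⟩
    rw [(Submodule.mem_bot ℚ).1 hx]
    exact isAlgebraic_zero
  have hbd : BddAbove s := by
    refine ⟨G.card, ?_⟩
    rintro _ ⟨W, hfd, hW, rfl⟩
    have := bound G M hM W hW
    omega
  obtain ⟨V, hfd, hV, hs⟩ := Nat.sSup_mem hne hbd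
  refine ⟨V, hfd, hV, fun W hfd' hW => ?_⟩
  have h1 : finrank ℚ W - rk M W ≤ sSup s := le_csSup hbd ⟨W, hfd', hW, rfl⟩
  have h2 := rk_le M W
  have h3 := rk_le M V
  omega

end

theorem exists_der_of_max (M : Submodule ℂ (Derivation ℚ ℂ ℂ)) {V W : Submodule ℚ ℂ}
    [FiniteDimensional ℚ V] [FiniteDimensional ℚ W] (hVW : V ≤ W)
    (hmax : finrank ℚ W + rk M V ≤ finrank ℚ V + rk M W) (l : ℂ →ₗ[ℚ] ℂ)
    (hl : ∀ x ∈ V, l x = 0) : ∃ D ∈ M, ∀ x ∈ W, dlog D x = l x := by
  classical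
  let rst : (W →ₗ[ℚ] ℂ) →ₗ[ℂ] (V →ₗ[ℚ] ℂ) :=
    { toFun := fun h => h ∘ₗ Submodule.inclusion hVW
      map_add' := fun _ _ => rfl
      map_smul' := fun _ _ => rfl }
  have hc : rst ∘ₗ res W = res V := rfl
  have hsurj : LinearMap.range rst = ⊤ := by
    rw [LinearMap.range_eq_top]
    intro h
    obtain ⟨h', hh'⟩ := LinearMap.exists_extend h
    refine ⟨h' ∘ₗ W.subtype, ?_⟩
    rw [← hh']
    rfl
  let P := M.map (res W) ⊓ LinearMap.ker rst
  have h1 := rank_domRestrict rst (M.map (res W))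
  have h2 : (M.map (res W)).map rst = M.map (res V) := by
    rw [← Submodule.map_comp, hc]
  rw [h2] at h1
  have h3 := rst.finrank_range_add_finrank_ker
  rw [hsurj, finrank_top, fr_hom, fr_hom] at h3
  have h4 : P = LinearMap.ker rst := by
    refine Submodule.eq_of_le_of_finrank_le inf_le_right ?_
    change finrank ℚ W + finrank ℂ (M.map (res V)) ≤ finrank ℚ V + finrank ℂ (M.map (res W))
      at hmax
    change _ ≤ finrank ℂ (M.map (res W) ⊓ LinearMap.ker rst : Submodule ℂ (W →ₗ[ℚ] ℂ))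
    omega
  have h5 : l ∘ₗ W.subtype ∈ LinearMap.ker rst := by
    rw [LinearMap.mem_ker]
    ext x
    exact hl x x.2
  rw [← h4] at h5
  obtain ⟨⟨D, hD, hDl⟩, -⟩ := h5
  exact ⟨D, hD, fun x hx => LinearMap.congr_fun hDl ⟨x, hx⟩⟩

end Pool.Agent.Q246.RZ
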