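import Mathlib
import Pool.Agent.TH813.One2
import Pool.Agent.Q246.ZeroOne

/-!
# Products of group types: transcendence degrees and derivations

For `MP_4aec10_nt.RelativeZeroOneLaw`.
-/

set_option autoImplicit false

namespace Pool.Agent.Q246.RZ

open Pool.Agent.TH813 Pool.Agent.TH813.G Pool.Agent.TH813.One Module MvPolynomial Matrix
open Pool.Agent.TH813.Rel (DF MK trF exists_derF kills_clF subset_cl toENat_trdeg)
open Pool.Agent.TH813.Rank (finrank_range_eq finrank_range_le)
open Pool.Agent.Q246.Pencil (sum_finrank_le finrank_le_of_surj)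

variable {F : IntermediateField ℚ ℂ} {ι : Type} {e : ι → ℕ} (T : ∀ c : ι, Ty F (e c))

/-- the coordinates of the derivations at `z` -/
noncomputable def evT (z : ι → ℂ) : DF F →ₗ[ℂ] (Cx e → ℂ) where
  toFun := fun D κ => crd T D κ z
  map_add' := fun D D' => by
    funext κ
    exact (T κ.1).frm_add_der κ.2 D D' (z κ.1)
  map_smul' := fun c D => by
    funext κ
    exact (T κ.1).frm_smul_der κ.2 c D (z κ.1)

theorem evT_apply (z : ι → ℂ) (D : DF F) (κ : Cx e) : evT T z D κ = crd T D κ z := rfl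

theorem evT_kills (z : ι → ℂ) (D : DF F) : evT T z D = 0 ↔ Kills T D z := by
  constructor
  · exact fun h κ => congrFun h κ
  · exact fun h => funext h

theorem crd_add (D : DF F) (κ : Cx e) (z w : ι → ℂ) :
    crd T D κ (fun i => z i + w i) = crd T D κ z + crd T D κ w :=
  (T κ.1).frm_add κ.2 D.2 _ _

theorem crd_smul (D : DF F) (κ : Cx e) (t : ℚ) (z : ι → ℂ) :
    crd T D κ (fun i => (t : ℂ) * z i) = (t : ℂ) * crd T D κ z := by
  have h := (T κ.1).frm_rat κ.2 D.2 t (z κ.1)
  rw [Rat.smul_def] at h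
  exact h

theorem crd_line (D : DF F) (κ : Cx e) (t : ℚ) (z w : ι → ℂ) :
    crd T D κ (fun i => z i + (t : ℂ) * w i) = crd T D κ z + (t : ℂ) * crd T D κ w := by
  rw [crd_add T D κ z (fun i => (t : ℂ) * w i), crd_smul]

/-- a rational combination -/
noncomputable def cmb {N : ℕ} (y : Fin N → ι → ℂ) (a : Fin N → ℚ) : ι → ℂ :=
  fun i => ∑ k, (a k : ℂ) * y k i

theorem crd_cmb {N : ℕ} (y : Fin N → ι → ℂ) (a : Fin N → ℚ) (D : DF F) (κ : Cx e) :
    crd T D κ (cmb y a) = ∑ k, (a k : ℂ) * crd T D κ (y k) := by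
  change (T κ.1).frmL κ.2 D.2 (∑ k, (a k : ℂ) * y k κ.1) = _
  rw [map_sum]
  refine Finset.sum_congr rfl fun k _ => ?_
  exact crd_smul T D κ (a k) (y k)

section fin

variable [Fintype ι]

theorem num_fin (z : ι → ℂ) : (num T z).Finite := Set.finite_iUnion fun c => (T c).N_fin _

theorem rank_evT (z : ι → ℂ) :
    ((finrank ℂ (LinearMap.range (evT T z)) : ℕ) : ℕ∞) = (MK F).eRk (num T z) := by
  classical
  obtain ⟨I, hI⟩ := (MK F).exists_isBasis (num T z) (Set.subset_univ _)
  have hIfin : I.Finite := (num_fin T z).subset hI.subset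
  have : Fintype I := hIfin.fintype
  let ρ : DF F →ₗ[ℂ] (I → ℂ) :=
    { toFun := fun D i => (D : Derivation ℚ ℂ ℂ) i
      map_add' := fun D D' => rfl
      map_smul' := fun c D => rfl }
  have hind : AlgebraicIndependent F (fun i : I => (i : ℂ)) := hI.indep
  have hsurj : Function.Surjective ρ := by
    intro v
    obtain ⟨D, hF, hD⟩ := exists_derF F hind v
    exact ⟨⟨D, hF⟩, funext hD⟩
  have hker : LinearMap.ker (evT T z) = LinearMap.ker ρ := by
    ext D
    rw [LinearMap.mem_ker, LinearMap.mem_ker, evT_kills, ← num_iff D.2]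
    constructor
    · intro h
      funext i
      exact h i (hI.subset i.2)
    · intro h x hx
      exact kills_clF F D.2 (S := I) (fun i hi => congrFun h ⟨i, hi⟩)
        (by rw [hI.closure_eq_closure]; exact subset_cl _ hx)
  rw [finrank_range_eq (evT T z) ρ hker, LinearMap.range_eq_top.2 hsurj, finrank_top,
    finrank_fintype_fun_eq_card]
  have h1 : I.encard = (MK F).eRk (num T z) := hI.encard_eq_eRk
  rw [← h1, ← Set.coe_fintypeCard]

/-- the transcendence degree over `F` of the numbers of `z` -/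
noncomputable def tn (z : ι → ℂ) : ℕ := Cardinal.toNat (trF F (num T z))

theorem tn_eq (z : ι → ℂ) : tn T z = finrank ℂ (LinearMap.range (evT T z)) := by
  have h1 : Cardinal.toENat (trF F (num T z)) = (MK F).eRk (num T z) := toENat_trdeg _
  unfold tn
  rw [← Cardinal.toNat_toENat, h1, ← rank_evT]
  rfl

/-- dual derivations -/
theorem exists_dual (z : ι → ℂ) (r : ℕ) (hr : r ≤ tn T z) :
    ∃ (κ : Fin r → Cx e) (Dd : Fin r → DF F),
      ∀ a b, crd T (Dd a) (κ b) z = if a = b then 1 else 0 := by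
  classical
  rw [tn_eq] at hr
  obtain ⟨J, x, hx1, -⟩ := GForms.exists_dual (k := ℂ)
    (V := LinearMap.range (evT T z))
    (fun κ : Cx e => (LinearMap.proj κ).comp (LinearMap.range (evT T z)).subtype) (by
      intro y hy
      apply Subtype.ext
      funext κ
      exact hy κ)
  have hch : ∀ a, ∃ D : DF F, evT T z D = (x a : Cx e → ℂ) := fun a => (x a).2
  choose De hDe using hch
  refine ⟨fun a => J (Fin.castLE hr a), fun a => De (Fin.castLE hr a), fun a b => ?_⟩
  have h1 := hx1 (Fin.castLE hr a) (Fin.castLE hr b)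
  have h2 : crd T (De (Fin.castLE hr a)) (J (Fin.castLE hr b)) z =
      if Fin.castLE hr a = Fin.castLE hr b then 1 else 0 := by
    rw [← evT_apply, hDe]
    exact h1
  rw [h2]
  simp [Fin.ext_iff]

/-- the lower bound from a nonvanishing minor -/
theorem le_tn_of_det (z : ι → ℂ) (r : ℕ) (κ : Fin r → Cx e) (Dd : Fin r → DF F)
    (h : (Matrix.of fun c b => crd T (Dd c) (κ b) z).det ≠ 0) : r ≤ tn T z := by
  classical
  rw [tn_eq]
  have h2 := finrank_le_of_surj (C := Fin r → ℂ) (evT T z)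
    { toFun := fun w b => w (κ b), map_add' := fun _ _ => rfl, map_smul' := fun _ _ => rfl } ⊤
    (by
      intro c
      set W : Matrix (Fin r) (Fin r) ℂ := Matrix.of fun c b => crd T (Dd c) (κ b) z with hW
      refine ⟨∑ e, (c ᵥ* W⁻¹) e • Dd e, trivial, funext fun b => ?_⟩
      change evT T z (∑ e, (c ᵥ* W⁻¹) e • Dd e) (κ b) = c b
      rw [map_sum, Finset.sum_apply]
      have h3 : ∀ e, (evT T z ((c ᵥ* W⁻¹) e • Dd e)) (κ b) = (c ᵥ* W⁻¹) e * W e b := by
        intro e
        rw [map_smul, Pi.smul_apply, smul_eq_mul]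
        rfl
      simp only [h3]
      have h4 : ((c ᵥ* W⁻¹) ᵥ* W) b = c b := by
        rw [vecMul_vecMul, nonsing_inv_mul W (isUnit_iff_ne_zero.2 h), vecMul_one]
      exact h4)
  rwa [finrank_fintype_fun_eq_card, Fintype.card_fin, Submodule.map_top] at h2

theorem main {N : ℕ} (y : Fin N → ι → ℂ) (a₀ : Fin N → ℚ) (r : ℕ)
    (hr : r ≤ tn T (cmb y a₀)) :
    ∃ P : MvPolynomial (Fin N) ℚ, P.IsHomogeneous r ∧ eval a₀ P ≠ 0 ∧
      ∀ a : Fin N → ℚ, eval a P ≠ 0 → r ≤ tn T (cmb y a) := by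
  classical
  obtain ⟨κ, Dd, hdual⟩ := exists_dual T (cmb y a₀) r hr
  let M : Matrix (Fin r) (Fin r) (MvPolynomial (Fin N) ℂ) :=
    Matrix.of fun a b => ∑ k, C (crd T (Dd a) (κ b) (y k)) * X k
  have hM : ∀ a b, (M a b).IsHomogeneous 1 := by
    intro a b
    change (∑ k, C (crd T (Dd a) (κ b) (y k)) * X k : MvPolynomial (Fin N) ℂ).IsHomogeneous 1
    refine IsHomogeneous.sum _ _ _ fun k _ => ?_
    have h0 : (C (crd T (Dd a) (κ b) (y k)) : MvPolynomial (Fin N) ℂ).IsHomogeneous 0 :=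
      isHomogeneous_C _ _
    have h1 : (X k : MvPolynomial (Fin N) ℂ).IsHomogeneous 1 := isHomogeneous_X _ _
    have h := h0.mul h1
    rwa [zero_add] at h
  set Q : MvPolynomial (Fin N) ℂ := M.det with hQ
  have hQh : Q.IsHomogeneous r := by
    rw [hQ, Matrix.det_apply]
    refine IsHomogeneous.sum _ _ _ fun σ _ => ?_
    have h1 : (∏ i, M (σ i) i).IsHomogeneous r := by
      have h2 := IsHomogeneous.prod Finset.univ (fun i => M (σ i) i) (fun _ => 1)
        (fun i _ => hM _ _)
      simpa using h2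
    rcases Int.units_eq_one_or (Equiv.Perm.sign σ) with h | h
    · rw [h, one_smul]; exact h1
    · rw [h]
      have h3 : ((-1 : ℤˣ) • ∏ i, M (σ i) i) = -∏ i, M (σ i) i := by
        rw [Units.smul_def]; simp
      rw [h3]
      exact h1.neg
  have hQe : ∀ a : Fin N → ℚ, eval (fun k => (a k : ℂ)) Q =
      (Matrix.of fun c b => crd T (Dd c) (κ b) (cmb y a)).det := by
    intro a
    rw [hQ, RingHom.map_det]
    congr 1
    ext c b
    simp only [RingHom.mapMatrix_apply, Matrix.map_apply, Matrix.of_apply, M, map_sum, map_mul,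
      eval_C, eval_X, crd_cmb]
    exact Finset.sum_congr rfl fun k _ => mul_comm _ _
  have hQ0 : eval (fun k => (a₀ k : ℂ)) Q ≠ 0 := by
    rw [hQe]
    have h1 : (Matrix.of fun c b => crd T (Dd c) (κ b) (cmb y a₀)) =
        (1 : Matrix (Fin r) (Fin r) ℂ) := by
      ext c b
      rw [Matrix.of_apply, hdual, Matrix.one_apply]
    rw [h1, Matrix.det_one]
    exact one_ne_zero
  obtain ⟨φ, hφ⟩ : ∃ φ : Dual ℚ ℂ, φ (eval (fun k => (a₀ k : ℂ)) Q) ≠ 0 := by
    by_contra hcon
    push Not at hcon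
    exact hQ0 ((Module.forall_dual_apply_eq_zero_iff ℚ _).1 hcon)
  let P : MvPolynomial (Fin N) ℚ := ∑ s ∈ Q.support, monomial s (φ (coeff s Q))
  have hPe : ∀ a : Fin N → ℚ, eval a P = φ (eval (fun k => (a k : ℂ)) Q) := by
    intro a
    rw [eval_eq' (fun k => (a k : ℂ)) Q, map_sum, map_sum]
    refine Finset.sum_congr rfl fun s _ => ?_
    rw [eval_monomial]
    have h1 : coeff s Q * ∏ i, ((a i : ℂ)) ^ s i = (∏ i, (a i) ^ s i : ℚ) • coeff s Q := by
      rw [Rat.smul_def]
      push_cast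
      ring
    rw [h1, map_smul, smul_eq_mul, mul_comm]
    congr 1
    rw [Finsupp.prod_fintype _ _ (by simp)]
  refine ⟨P, ?_, by rwa [hPe], fun a ha => ?_⟩
  · refine IsHomogeneous.sum _ _ _ fun s hs => ?_
    refine isHomogeneous_monomial _ ?_
    by_contra hne
    exact (mem_support_iff.1 hs) (hQh.coeff_eq_zero hne)
  · have h1 : eval (fun k => (a k : ℂ)) Q ≠ 0 := by
      intro h
      rw [hPe, h, map_zero] at ha
      exact ha rfl
    rw [hQe] at h1
    exact le_tn_of_det T _ r κ Dd h1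

/-- lines, with multiplicities -/
theorem lines (z w : ι → ℂ) (m : ℕ) (hm : m ≤ tn T w) (S : Finset ℚ) :
    ∑ t ∈ S, (m - tn T (fun i => z i + (t : ℂ) * w i)) ≤ m := by
  classical
  obtain ⟨κ, Dd, hdual⟩ := exists_dual T w m hm
  let Φ : (Fin m → ℂ) →ₗ[ℂ] DF F :=
    { toFun := fun c => ∑ j, c j • Dd j
      map_add' := fun c c' => by
        simp only [Pi.add_apply, add_smul, Finset.sum_add_distrib]
      map_smul' := fun a c => by
        simp only [Pi.smul_apply, smul_assoc, Finset.smul_sum, RingHom.id_apply] }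
  let R : (Cx e → ℂ) →ₗ[ℂ] (Fin m → ℂ) :=
    { toFun := fun w b => w (κ b), map_add' := fun _ _ => rfl, map_smul' := fun _ _ => rfl }
  let H : End ℂ (Fin m → ℂ) := R ∘ₗ evT T z ∘ₗ Φ
  have hw : R ∘ₗ evT T w ∘ₗ Φ = LinearMap.id := by
    ext1 j
    ext b
    change evT T w (∑ a, (Pi.single j (1 : ℂ) : Fin m → ℂ) a • Dd a) (κ b) = _
    rw [map_sum, Finset.sum_apply]
    have h3 : ∀ a, (evT T w ((Pi.single j (1 : ℂ) : Fin m → ℂ) a • Dd a)) (κ b) =
        (Pi.single j (1 : ℂ) : Fin m → ℂ) a * (if a = b then 1 else 0) := by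
      intro a
      rw [map_smul, Pi.smul_apply, smul_eq_mul, ← hdual a b]
      rfl
    simp only [h3]
    simp
  have hL : ∀ (t : ℚ) (c : Fin m → ℂ),
      R (evT T (fun i => z i + (t : ℂ) * w i) (Φ c)) = H c + (t : ℂ) • c := by
    intro t c
    have h1 : R (evT T w (Φ c)) = c := LinearMap.congr_fun hw c
    funext b
    change crd T (Φ c) (κ b) (fun i => z i + (t : ℂ) * w i) = crd T (Φ c) (κ b) z + (t : ℂ) * c b
    rw [crd_line]
    congr 2
    exact congrFun h1 b
  let E : ℚ → Submodule ℂ (Fin m → ℂ) := fun t => H.eigenspace (-(t : ℂ))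
  have hE : iSupIndep E :=
    (End.eigenspaces_iSupIndep H).comp (f := fun t : ℚ => -(t : ℂ))
      (fun a b hab => by simpa using hab)
  have hsum := sum_finrank_le E hE ⊤ (fun t => le_top) S
  rw [finrank_top, finrank_fintype_fun_eq_card, Fintype.card_fin] at hsum
  refine le_trans (Finset.sum_le_sum fun t _ => ?_) hsum
  have h1 := (R ∘ₗ evT T (fun i => z i + (t : ℂ) * w i) ∘ₗ Φ).finrank_range_add_finrank_ker
  rw [finrank_fintype_fun_eq_card, Fintype.card_fin] at h1
  have h2 : LinearMap.ker (R ∘ₗ evT T (fun i => z i + (t : ℂ) * w i) ∘ₗ Φ) = E t := by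
    ext c
    rw [LinearMap.mem_ker, LinearMap.comp_apply, LinearMap.comp_apply, hL,
      End.mem_eigenspace_iff, neg_smul, ← add_eq_zero_iff_eq_neg]
  have h3 : finrank ℂ (LinearMap.range (R ∘ₗ evT T (fun i => z i + (t : ℂ) * w i) ∘ₗ Φ)) ≤
      tn T (fun i => z i + (t : ℂ) * w i) := by
    rw [tn_eq, LinearMap.range_comp]
    refine (Submodule.finrank_map_le _ _).trans ?_
    exact Submodule.finrank_mono (LinearMap.range_comp_le_range _ _)
  rw [h2] at h1
  omega

end fin

end Pool.Agent.Q246.RZ
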