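import Mathlib
import Pool.Agent.Q246.RZ.Rk
import Pool.Agent.Q246.RZ.Lw

/-!
# Lines with an algebraic direction over a field of finite transcendence degree

For `MP_4aec10_nt.RelativeZeroOneLaw`.
-/

set_option autoImplicit false

namespace Pool.Agent.Q246.RZ

open Pool.Agent.W252 Pool.Agent.W669.Gel Pool.Agent.TH813.Core
open Pool.Agent.TH813 Pool.Agent.TH813.G Pool.Agent.TH813.One Module
open Pool.Agent.TH813.Rel (DF MK trF exists_derF kills_clF subset_cl toENat_trdeg)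
open Pool.Agent.TH813.Rank (finrank_range_eq finrank_range_le)
open Pool.Agent.Q246.Pencil (sum_finrank_le finrank_le_of_surj rank_prod rank_domRestrict
  sum_tsub_le)

variable {F : IntermediateField ℚ ℂ} {ι : Type} (T : ι → Ty F 0)

/-- the derivations over `F` which kill the numbers of `w` -/
noncomputable def Kw (w : ι → ℂ) : Submodule ℂ (Derivation ℚ ℂ ℂ) :=
  (LinearMap.ker (evT T w)).map (DF F).subtype

theorem mem_Kw {w : ι → ℂ} {D : Derivation ℚ ℂ ℂ} :
    D ∈ Kw T w ↔ ∃ h : D ∈ DF F, evT T w ⟨D, h⟩ = 0 := by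
  constructor
  · rintro ⟨D', hD', rfl⟩
    exact ⟨D'.2, hD'⟩
  · rintro ⟨h, h'⟩
    exact ⟨⟨D, h⟩, h', rfl⟩

theorem mem_Kw_of {w : ι → ℂ} {D : Derivation ℚ ℂ ℂ} (h : D ∈ DF F)
    (h' : ∀ x ∈ num T w, D x = 0) : D ∈ Kw T w :=
  (mem_Kw T).2 ⟨h, (evT_kills T w ⟨D, h⟩).2 ((num_iff h).1 h')⟩

/-- the torus and the types `T` -/
noncomputable def TS (n : ℕ) : Fin n ⊕ ι → Ty F 0 := Sum.elim (fun _ => TM F) T

/-- `D ↦ D z` -/
noncomputable def e0 {n : ℕ} (z : Fin n → ℂ) : DF F →ₗ[ℂ] (Fin n → ℂ) :=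
  Pool.Agent.Q246.Pencil.ev0 z ∘ₗ (DF F).subtype

/-- `D ↦ dlog D z` -/
noncomputable def e1 {n : ℕ} (z : Fin n → ℂ) : DF F →ₗ[ℂ] (Fin n → ℂ) :=
  Pool.Agent.Q246.Pencil.ev1 z ∘ₗ (DF F).subtype

theorem e0_apply {n : ℕ} (z : Fin n → ℂ) (D : DF F) (i : Fin n) :
    e0 z D i = (D : Derivation ℚ ℂ ℂ) (z i) := rfl

theorem e1_apply {n : ℕ} (z : Fin n → ℂ) (D : DF F) (i : Fin n) :
    e1 z D i = dlog (D : Derivation ℚ ℂ ℂ) (z i) := rfl

theorem der_alg0 (D : Derivation ℚ ℂ ℂ) {x : ℂ} (h : IsAlgebraic ℚ x) : D x = 0 := by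
  have h4 : IsAlgebraic (⊥ : IntermediateField ℚ ℂ) x := h.tower_top _
  refine Pool.Agent.H327R2.SC.der_alg ⊥ D (fun x hx => ?_) h4
  obtain ⟨q, rfl⟩ := IntermediateField.mem_bot.1 hx
  exact D.map_algebraMap q

variable [Fintype ι]

theorem lower {n : ℕ} (z u : Fin n → ℂ) (w : ι → ℂ)
    (hu : ∀ i, IsAlgebraic ℚ (u i)) (N : Submodule ℂ (DF F))
    (hN : N ≤ LinearMap.ker (evT T w)) (hN' : N ≤ LinearMap.ker (e0 z)) :
    tn T w + finrank ℂ ((LinearMap.ker (evT T w)).map (e0 z)) +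
      finrank ℂ (N.map (e1 (fun i => z i + u i))) ≤
      tn (TS T n) (Sum.elim (fun i => z i + u i) w) := by
  classical
  rw [tn_eq (TS T n), tn_eq T w]
  let G : DF F →ₗ[ℂ] (Cx (fun _ : ι => 0) → ℂ) × ((Fin n → ℂ) × (Fin n → ℂ)) :=
    (evT T w).prod ((e0 z).prod (e1 (fun i => z i + u i)))
  have h1 : LinearMap.ker (evT (TS T n) (Sum.elim (fun i => z i + u i) w)) ≤
      LinearMap.ker G := by
    intro D hD
    rw [LinearMap.mem_ker] at hD ⊢
    refine Prod.ext ?_ (Prod.ext ?_ ?_)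
    · funext κ
      exact congrFun hD ⟨Sum.inr κ.1, κ.2⟩
    · funext i
      have h2 : (D : Derivation ℚ ℂ ℂ) (z i + u i) = 0 := congrFun hD ⟨Sum.inl i, none⟩
      rw [map_add, der_alg0 D (hu i), add_zero] at h2
      exact h2
    · funext i
      exact congrFun hD ⟨Sum.inl i, some 0⟩
  have h2 := finrank_range_le (evT (TS T n) (Sum.elim (fun i => z i + u i) w)) G h1
  have h3 := rank_prod (evT T w) ((e0 z).prod (e1 (fun i => z i + u i))) ⊤
    (LinearMap.ker (evT T w)) le_top le_rfl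
  have h4 := rank_prod (e0 z) (e1 (fun i => z i + u i)) (LinearMap.ker (evT T w)) N hN hN'
  rw [Submodule.map_top, Submodule.map_top] at h3
  have h6 : finrank ℂ (LinearMap.range G) =
      finrank ℂ (LinearMap.range ((evT T w).prod ((e0 z).prod (e1 (fun i => z i + u i))))) :=
    rfl
  rw [h6] at h2
  omega

section main

variable {w : ι → ℂ} {V : Submodule ℚ ℂ} [hVfd : FiniteDimensional ℚ V]
  (hV : ∀ x ∈ V, IsAlgebraic ℚ x)
  (hmax : ∀ W : Submodule ℚ ℂ, FiniteDimensional ℚ W → (∀ x ∈ W, IsAlgebraic ℚ x) →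
      finrank ℚ W + rk (Kw T w) V ≤ finrank ℚ V + rk (Kw T w) W)
  (K : IntermediateField ℚ ℂ) (hK : ∀ x ∈ K, IsAlgebraic ℚ x) {n : ℕ} (γ : Fin n → ℂ)
  (hγ : ∀ i, IsAlgebraic ℚ (γ i))
  (hli : LinearIndependent K (fun i => (Submodule.span K (V : Set ℂ)).mkQ (γ i)))

include hV hmax hK hγ hli in
omit [Fintype ι] in
theorem exists_dualK (S : Finset K) (j : Fin n) : ∃ D : DF F, evT T w D = 0 ∧
      ∀ t ∈ S, ∀ i : Fin n, dlog (D : Derivation ℚ ℂ ℂ) ((t : ℂ) * γ i) =
        if i = j then (t : ℂ) else 0 := by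
  classical
  set B := Submodule.span K (V : Set ℂ) with hB
  obtain ⟨g, hg⟩ := LinearMap.exists_leftInverse_of_injective
    (Finsupp.linearCombination K (fun i => B.mkQ (γ i))) (LinearMap.ker_eq_bot.2 hli)
  have hg' : ∀ i, g (B.mkQ (γ i)) = Finsupp.single i 1 := by
    intro i
    have h1 := LinearMap.congr_fun hg (Finsupp.single i 1)
    rw [LinearMap.comp_apply, Finsupp.linearCombination_single, one_smul] at h1
    exact h1
  let l : ℂ →ₗ[K] K := (Finsupp.lapply j : (Fin n →₀ K) →ₗ[K] K) ∘ₗ g ∘ₗ B.mkQ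
  let l' : ℂ →ₗ[ℚ] ℂ := K.val.toLinearMap ∘ₗ l.restrictScalars ℚ
  -- a finite-dimensional space which contains `V` and the `t γ_i`
  let Y : Set ℂ := (fun p : K × Fin n => ((p.1 : K) : ℂ) * γ p.2) ''
    ((S : Set K) ×ˢ (Set.univ : Set (Fin n)))
  have hYf : Y.Finite := (S.finite_toSet.prod Set.finite_univ).image _
  let W : Submodule ℚ ℂ := V ⊔ Submodule.span ℚ Y
  have : FiniteDimensional ℚ (Submodule.span ℚ Y) := FiniteDimensional.span_of_finite ℚ hYf
  have hWfd : FiniteDimensional ℚ W := inferInstance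
  have hYal : ∀ y ∈ Submodule.span ℚ Y, IsAlgebraic ℚ y := by
    intro y hy
    induction hy using Submodule.span_induction with
    | mem x hx =>
      obtain ⟨p, -, rfl⟩ := hx
      exact (hK p.1 p.1.2).mul (hγ p.2)
    | zero => exact isAlgebraic_zero
    | add a b _ _ ha hb => exact ha.add hb
    | smul c a _ ha =>
      rw [Rat.smul_def]
      exact (isAlgebraic_algebraMap (A := ℂ) c).mul ha
  have hWal : ∀ x ∈ W, IsAlgebraic ℚ x := by
    intro x hx
    obtain ⟨v, hv, y, hy, rfl⟩ := Submodule.mem_sup.1 hx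
    exact (hV v hv).add (hYal y hy)
  obtain ⟨D, hD, hDl⟩ := exists_der_of_max (Kw T w) (V := V) (W := W) le_sup_left
    (hmax W hWfd hWal) l' (by
      intro v hv
      change (((Finsupp.lapply j : (Fin n →₀ K) →ₗ[K] K) (g (B.mkQ v)) : K) : ℂ) = 0
      have h0 : B.mkQ v = 0 := by
        rw [Submodule.mkQ_apply, Submodule.Quotient.mk_eq_zero]
        exact Submodule.subset_span hv
      rw [h0, map_zero, map_zero]
      rfl)
  obtain ⟨hDF, hk⟩ := (mem_Kw T).1 hD
  refine ⟨⟨D, hDF⟩, hk, fun t ht i => ?_⟩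
  change dlog D ((t : ℂ) * γ i) = _
  rw [hDl _ (Submodule.mem_sup_right (Submodule.subset_span
    ⟨(t, i), by simpa using ht, rfl⟩))]
  change (((Finsupp.lapply j : (Fin n →₀ K) →ₗ[K] K) (g (B.mkQ ((t : ℂ) * γ i))) : K) : ℂ) = _
  have h1 : ((t : ℂ) * γ i) = t • γ i := rfl
  rw [h1, map_smul, map_smul, hg', map_smul, Finsupp.lapply_apply, Finsupp.single_apply]
  split_ifs <;> simp

include hV hmax hK hγ hli in
/-- **Lines with an algebraic direction.** -/
theorem pencil (z : Fin n → ℂ) (J : Finset (Fin n))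
    (hJ : ∀ c : J → ℂ, ∃ D : DF F, evT T w D = 0 ∧ ∀ j : J, (D : Derivation ℚ ℂ ℂ) (z j) = c j)
    (S : Finset K) :
    ∑ t ∈ S, (n + tn T w - tn (TS T n) (Sum.elim (fun i => z i + (t : ℂ) * γ i) w)) ≤
      n - J.card := by
  classical
  choose D hD1 hD2 using exists_dualK T hV hmax K hK γ hγ hli S
  let Φ : (Fin n → ℂ) →ₗ[ℂ] DF F :=
    { toFun := fun c => ∑ j, c j • D j
      map_add' := fun c c' => by
        simp only [Pi.add_apply, add_smul, Finset.sum_add_distrib]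
      map_smul' := fun a c => by
        simp only [Pi.smul_apply, smul_assoc, Finset.smul_sum, RingHom.id_apply] }
  have hΦ : ∀ c y, dlog ((Φ c : DF F) : Derivation ℚ ℂ ℂ) y =
      ∑ j, c j * dlog ((D j : DF F) : Derivation ℚ ℂ ℂ) y := by
    intro c y
    have h1 : ((Φ c : DF F) : Derivation ℚ ℂ ℂ) =
        ∑ j, c j • ((D j : DF F) : Derivation ℚ ℂ ℂ) := by
      change ((∑ j, c j • D j : DF F) : Derivation ℚ ℂ ℂ) = _
      rw [Submodule.coe_sum]
      rfl
    rw [h1]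
    exact dlog_sum Finset.univ c (fun j => ((D j : DF F) : Derivation ℚ ℂ ℂ)) y
  have hΦB : ∀ c, Φ c ∈ LinearMap.ker (evT T w) := by
    intro c
    rw [LinearMap.mem_ker]
    change evT T w (∑ j, c j • D j) = 0
    rw [map_sum]
    exact Finset.sum_eq_zero fun j _ => by rw [map_smul, hD1, smul_zero]
  let H : End ℂ (Fin n → ℂ) := e1 z ∘ₗ Φ
  let X : Submodule ℂ (Fin n → ℂ) := LinearMap.ker (e0 z ∘ₗ Φ)
  let E : K → Submodule ℂ (Fin n → ℂ) := fun t => X ⊓ H.eigenspace (-(t : ℂ))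
  have hL : ∀ t ∈ S, ∀ c : Fin n → ℂ,
      e1 (fun i => z i + t * γ i) (Φ c) = H c + (t : ℂ) • c := by
    intro t ht c
    funext i
    change dlog ((Φ c : DF F) : Derivation ℚ ℂ ℂ) (z i + t * γ i) =
      dlog ((Φ c : DF F) : Derivation ℚ ℂ ℂ) (z i) + t * c i
    rw [dlog_add, hΦ c (t * γ i)]
    congr 1
    rw [Finset.sum_congr rfl (fun j _ => by rw [hD2 j t ht i])]
    rw [Finset.sum_eq_single i (fun j _ hj => by rw [if_neg (Ne.symm hj), mul_zero])
      (fun h => absurd (Finset.mem_univ i) h), if_pos rfl, mul_comm]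
  have hE : iSupIndep E := by
    have h1 : iSupIndep fun t : K => H.eigenspace (-(t : ℂ)) :=
      (End.eigenspaces_iSupIndep H).comp (f := fun t : K => -(t : ℂ))
        (fun a b hab => Subtype.ext (neg_injective hab))
    exact h1.mono fun t => inf_le_right
  have hsum := sum_finrank_le E hE X (fun t => inf_le_left) S
  set μ := finrank ℂ ((LinearMap.ker (evT T w)).map (e0 z)) with hμ
  have hμJ : J.card ≤ μ := by
    have h1 := finrank_le_of_surj (C := J → ℂ) (e0 z)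
      { toFun := fun w j => w j, map_add' := fun _ _ => rfl, map_smul' := fun _ _ => rfl }
      (LinearMap.ker (evT T w)) (by
        intro c
        obtain ⟨D', h1, h2⟩ := hJ c
        exact ⟨D', h1, funext fun j => h2 j⟩)
    rwa [finrank_fintype_fun_eq_card, Fintype.card_coe] at h1
  have hX : n ≤ μ + finrank ℂ X := by
    have h1 := (e0 z ∘ₗ Φ).finrank_range_add_finrank_ker
    rw [finrank_fintype_fun_eq_card, Fintype.card_fin] at h1
    have h2 : finrank ℂ (LinearMap.range (e0 z ∘ₗ Φ)) ≤ μ := by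
      apply Submodule.finrank_mono
      rintro _ ⟨c, rfl⟩
      exact ⟨Φ c, hΦB c, rfl⟩
    change _ + finrank ℂ X = n at h1
    omega
  have hXn : finrank ℂ X ≤ n := by
    have h1 := Submodule.finrank_le X
    rwa [finrank_fintype_fun_eq_card, Fintype.card_fin] at h1
  have hterm : ∀ t ∈ S, n + tn T w - tn (TS T n) (Sum.elim (fun i => z i + (t : ℂ) * γ i) w) ≤
      finrank ℂ (E t) - (μ + finrank ℂ X - n) := by
    intro t ht
    have h1 := lower T z (fun i => (t : ℂ) * γ i) w (fun i => (hK t t.2).mul (hγ i)) (X.map Φ)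
      (by
        rintro _ ⟨c, -, rfl⟩
        exact hΦB c)
      (by
        rintro _ ⟨c, hc, rfl⟩
        exact hc)
    have h2 := rank_domRestrict (e1 (fun i => z i + t * γ i) ∘ₗ Φ) X
    rw [Submodule.map_comp] at h2
    have h3 : (X ⊓ LinearMap.ker (e1 (fun i => z i + t * γ i) ∘ₗ Φ) :
        Submodule ℂ (Fin n → ℂ)) = E t := by
      ext c
      simp only [E, Submodule.mem_inf, LinearMap.mem_ker, LinearMap.comp_apply,
        End.mem_eigenspace_iff]
      rw [hL t ht]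
      constructor
      · rintro ⟨h4, h5⟩
        exact ⟨h4, by rw [neg_smul]; exact eq_neg_of_add_eq_zero_left h5⟩
      · rintro ⟨h4, h5⟩
        exact ⟨h4, by rw [h5, neg_smul]; exact neg_add_cancel _⟩
    rw [h3] at h2
    omega
  calc ∑ t ∈ S, (n + tn T w - tn (TS T n) (Sum.elim (fun i => z i + (t : ℂ) * γ i) w))
      ≤ ∑ t ∈ S, (finrank ℂ (E t) - (μ + finrank ℂ X - n)) := Finset.sum_le_sum hterm
    _ ≤ (∑ t ∈ S, finrank ℂ (E t)) - (μ + finrank ℂ X - n) := sum_tsub_le _ _ _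
    _ ≤ n - J.card := by omega

end main

end Pool.Agent.Q246.RZ
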