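import Mathlib
import Pool.Agent.Q246.RZ.Pen

/-!
# Products of the multiplicative group and elliptic curves: definitions and the common proof

`G = ∏ T_i`, where every `T_i` is the multiplicative group (`none`) or an elliptic curve `ℂ / L.lattice`
(`some L`), with invariants in a subfield `F` of `ℂ`. `td F T r` is the transcendence degree over `F`
of the components of `r` and `exp_G r`. The theorem `all` is used by three hand-ins of
`Pool/Agent/Results/MP_4aec10_nt`: one for each part.
-/

set_option autoImplicit false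

open Module
open scoped PeriodPair

namespace Pool.Agent.Q246.RZ.Parts

/-- the invariants of `T` are in `F` (`none`: the multiplicative group, `some L`: the elliptic curve
`ℂ / L.lattice`) -/
def Inv (F : IntermediateField ℚ ℂ) : Option PeriodPair → Prop
  | none => True
  | some L => L.g₂ ∈ F ∧ L.g₃ ∈ F

/-- the coordinate of the point `exp_T u`: the number `e^u`, resp. `℘(u)` if `u` is not in the
lattice (if it is then the point is the origin, and the set is empty) -/
def value : Option PeriodPair → ℂ → Set ℂ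
  | none, u => {Complex.exp u}
  | some L, u => {w | u ∉ L.lattice ∧ w = ℘[L] u}

/-- the components of `exp_G r` -/
def values {ι : Type} (T : ι → Option PeriodPair) (r : ι → ℂ) : Set ℂ :=
  ⋃ i, value (T i) (r i)

/-- the transcendence degree over `F` of the field generated over `F` by the components of `r` and of
`exp_G r` (a natural number, as there are finitely many of them) -/
noncomputable def td (F : IntermediateField ℚ ℂ) {ι : Type} (T : ι → Option PeriodPair)
    (r : ι → ℂ) : ℕ :=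
  Cardinal.toNat (Algebra.trdeg F (IntermediateField.adjoin F (Set.range r ∪ values T r)))

/-- the group `𝔾ₘ^n × G` -/
def withTorus (n : ℕ) {ι : Type} (T : ι → Option PeriodPair) : Fin n ⊕ ι → Option PeriodPair :=
  Sum.elim (fun _ => none) T

/-- `F` has finite transcendence degree over `ℚ`: it is algebraic over a finitely generated field -/
def FiniteTrdeg (F : IntermediateField ℚ ℂ) : Prop :=
  ∃ s : Finset ℂ, ∀ x ∈ F, IsAlgebraic (IntermediateField.adjoin ℚ (s : Set ℂ)) x

/-- The combination `y(a) = a_1 y_1 + … + a_N y_N`. -/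
noncomputable def comb {ι : Type} {N : ℕ} (y : Fin N → ι → ℂ) (a : Fin N → ℚ) : ι → ℂ :=
  fun i => ∑ k, (a k : ℂ) * y k i

section aux

open Pool.Agent.TH813 Pool.Agent.TH813.One
open Pool.Agent.TH813.Rel (DF trF MK)
open Pool.Agent.Q246.RZ

variable {F : IntermediateField ℚ ℂ}

/-- the group types -/
noncomputable def ty (T : Option PeriodPair) (h : Inv F T) : G.Ty F 0 :=
  match T, h with
  | none, _ => G.TM F
  | some L, h => G.TF L h.1 h.2

theorem N_ty (T : Option PeriodPair) (h : Inv F T) (z : ℂ) :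
    (ty T h).N z = {z} ∪ value T z := by
  cases T with
  | none => rfl
  | some L =>
    change {z} ∪ G.Wp L z = {z} ∪ value (some L) z
    congr 1
    ext w
    constructor
    · rintro ⟨u, ⟨hu, hl⟩, rfl⟩
      rw [Set.mem_singleton_iff] at hu
      subst hu
      exact ⟨hl, rfl⟩
    · rintro ⟨hl, rfl⟩
      exact ⟨z, ⟨rfl, hl⟩, rfl⟩

theorem num_ty {ι : Type} {T : ι → Option PeriodPair} (S : ι → G.Ty F 0)
    (hS : ∀ i z, (S i).N z = {z} ∪ value (T i) z) (r : ι → ℂ) :
    num S r = Set.range r ∪ values T r := by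
  ext x
  simp only [num, hS, values, Set.mem_iUnion, Set.mem_union, Set.mem_singleton_iff,
    Set.mem_range]
  constructor
  · rintro ⟨i, h | h⟩
    · exact Or.inl ⟨i, h.symm⟩
    · exact Or.inr ⟨i, h⟩
  · rintro (⟨i, h⟩ | ⟨i, h⟩)
    · exact ⟨i, Or.inl h.symm⟩
    · exact ⟨i, Or.inr h⟩

theorem td_ty {ι : Type} {T : ι → Option PeriodPair} (S : ι → G.Ty F 0)
    (hS : ∀ i z, (S i).N z = {z} ∪ value (T i) z) (r : ι → ℂ) : td F T r = tn S r := by
  unfold td tn
  rw [num_ty S hS]
  rfl

theorem TS_ty {ι : Type} {T : ι → Option PeriodPair} (hT : ∀ i, Inv F (T i)) (n : ℕ)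
    (i : Fin n ⊕ ι) (z : ℂ) :
    (TS (fun i => ty (T i) (hT i)) n i).N z = {z} ∪ value (withTorus n T i) z := by
  cases i with
  | inl i => rfl
  | inr i => exact N_ty (T i) (hT i) z

/-- the constants of a derivation -/
def cst (D : Derivation ℚ ℂ ℂ) : IntermediateField ℚ ℂ where
  carrier := {x | D x = 0}
  add_mem' := by
    intro a b ha hb
    change D (a + b) = 0
    rw [map_add, show D a = 0 from ha, show D b = 0 from hb, add_zero]
  mul_mem' := by
    intro a b ha hb
    change D (a * b) = 0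
    rw [Derivation.leibniz, show D a = 0 from ha, show D b = 0 from hb, smul_zero, smul_zero,
      add_zero]
  algebraMap_mem' := fun q => D.map_algebraMap q
  inv_mem' := by
    intro a ha
    change D a⁻¹ = 0
    rw [Derivation.leibniz_inv, show D a = 0 from ha, smul_zero]

theorem killed {s : Finset ℂ} {D : Derivation ℚ ℂ ℂ} (h : ∀ x ∈ s, D x = 0) {x : ℂ}
    (hx : IsAlgebraic (IntermediateField.adjoin ℚ (s : Set ℂ)) x) : D x = 0 := by
  refine Pool.Agent.H327R2.SC.der_alg _ D (fun y hy => ?_) hx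
  have h1 : IntermediateField.adjoin ℚ (s : Set ℂ) ≤ cst D := by
    rw [IntermediateField.adjoin_le_iff]
    exact fun y hy => h y hy
  exact h1 hy

end aux

open MvPolynomial in
/-- the three parts together -/
theorem all (F : IntermediateField ℚ ℂ) (ι : Type) [Fintype ι] (T : ι → Option PeriodPair)
    (hT : ∀ i, Inv F (T i)) :
    (FiniteTrdeg F → ∀ w : ι → ℂ,
      ∃ V : Submodule ℚ ℂ, FiniteDimensional ℚ V ∧ (∀ v ∈ V, IsAlgebraic ℚ v) ∧
        ∀ K : IntermediateField ℚ ℂ, (∀ x ∈ K, IsAlgebraic ℚ x) →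
        ∀ (n : ℕ) (γ : Fin n → ℂ), (∀ i, IsAlgebraic ℚ (γ i)) →
          LinearIndependent K (fun i => (Submodule.span K (V : Set ℂ)).mkQ (γ i)) →
          n + td F T w ≤ td F (withTorus n T) (Sum.elim γ w) ∧
          ∀ (z : Fin n → ℂ) (J : Finset (Fin n)),
            AlgebraicIndependent (IntermediateField.adjoin F (Set.range w ∪ values T w))
              (fun j : J => z j) →
            ∀ S : Finset K, ∑ t ∈ S, (n + td F T w -
              td F (withTorus n T) (Sum.elim (fun i => z i + (t : ℂ) * γ i) w)) ≤ n - J.card) ∧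
    (∀ (N : ℕ) (y : Fin N → ι → ℂ) (m : ℕ) (a₀ : Fin N → ℚ), m ≤ td F T (comb y a₀) →
      (∃ P : MvPolynomial (Fin N) ℚ, P.IsHomogeneous m ∧ eval a₀ P ≠ 0 ∧
        ∀ a : Fin N → ℚ, eval a P ≠ 0 → m ≤ td F T (comb y a)) ∧
      ∀ S : Finset ℚ, {a : Fin N → ℚ | (∀ k, a k ∈ S) ∧ td F T (comb y a) < m}.encard ≤
        ((m * S.card ^ (N - 1) : ℕ) : ℕ∞)) ∧
    (∀ (m : ℕ) (z w : ι → ℂ), m ≤ td F T w → ∀ S : Finset ℚ,
      ∑ t ∈ S, (m - td F T (fun i => z i + (t : ℂ) * w i)) ≤ m) := by
  classical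
  let S₀ : ι → Pool.Agent.TH813.G.Ty F 0 := fun i => ty (T i) (hT i)
  have hS₀ : ∀ i z, (S₀ i).N z = {z} ∪ value (T i) z := fun i z => N_ty (T i) (hT i) z
  have htd : ∀ r : ι → ℂ, td F T r = Pool.Agent.Q246.RZ.tn S₀ r := fun r => td_ty S₀ hS₀ r
  have htdn : ∀ (n : ℕ) (r : Fin n ⊕ ι → ℂ), td F (withTorus n T) r =
      Pool.Agent.Q246.RZ.tn (Pool.Agent.Q246.RZ.TS S₀ n) r := fun n r =>
    td_ty _ (fun i z => TS_ty hT n i z) r
  refine ⟨fun hF w => ?_, fun N y m a₀ h => ?_, fun m z w h S => ?_⟩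
  · obtain ⟨s, hs⟩ := hF
    have hfin := Pool.Agent.Q246.RZ.num_fin S₀ w
    obtain ⟨V, hVfd, hV, hmax⟩ := Pool.Agent.Q246.RZ.exists_max (s ∪ hfin.toFinset)
      (Pool.Agent.Q246.RZ.Kw S₀ w) (by
        intro D hD
        refine Pool.Agent.Q246.RZ.mem_Kw_of S₀ ?_ ?_
        · intro x hx
          exact killed (fun y hy => hD y (Finset.mem_union_left _ hy)) (hs x hx)
        · intro x hx
          exact hD x (Finset.mem_union_right _ (hfin.mem_toFinset.2 hx)))
    refine ⟨V, hVfd, hV, fun K hK n γ hγ hli => ?_⟩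
    have key : ∀ (z : Fin n → ℂ) (J : Finset (Fin n)),
        AlgebraicIndependent (IntermediateField.adjoin F (Set.range w ∪ values T w))
          (fun j : J => z j) →
        ∀ S : Finset K, ∑ t ∈ S, (n + td F T w -
          td F (withTorus n T) (Sum.elim (fun i => z i + (t : ℂ) * γ i) w)) ≤ n - J.card := by
      intro z J hJ S
      simp only [htd, htdn]
      refine Pool.Agent.Q246.RZ.pencil S₀ hV hmax K hK γ hγ hli z J (fun c => ?_) S
      obtain ⟨D, hD⟩ := Pool.Agent.H135R2.VS.exists_der hJ c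
      have hk : ∀ x ∈ IntermediateField.adjoin F (Set.range w ∪ values T w), D x = 0 :=
        fun x hx => D.map_algebraMap (⟨x, hx⟩ :
          IntermediateField.adjoin F (Set.range w ∪ values T w))
      have hDF : D.restrictScalars ℚ ∈ Pool.Agent.TH813.Rel.DF F := fun x hx =>
        hk x (IntermediateField.algebraMap_mem _ (⟨x, hx⟩ : F))
      refine ⟨⟨D.restrictScalars ℚ, hDF⟩, ?_, hD⟩
      rw [Pool.Agent.Q246.RZ.evT_kills]
      refine (Pool.Agent.TH813.One.num_iff hDF).1 (fun x hx => ?_)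
      rw [num_ty S₀ hS₀] at hx
      exact hk x (IntermediateField.subset_adjoin F _ hx)
    refine ⟨?_, key⟩
    have h1 := key 0 ∅ (by
      have : IsEmpty (∅ : Finset (Fin n)) := ⟨fun x => Finset.notMem_empty _ x.2⟩
      exact algebraicIndependent_empty_type) ({0, 1} : Finset K)
    have h01 : (0 : K) ≠ 1 := zero_ne_one
    rw [Finset.sum_pair h01] at h1
    have h3 : (fun i => (0 : Fin n → ℂ) i + ((0 : K) : ℂ) * γ i) = (0 : Fin n → ℂ) := by
      funext i; simp
    have h4 : (fun i => (0 : Fin n → ℂ) i + ((1 : K) : ℂ) * γ i) = γ := by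
      funext i; simp
    rw [h3, h4] at h1
    have h5 : td F (withTorus n T) (Sum.elim (0 : Fin n → ℂ) w) ≤ td F T w := by
      rw [htd, htdn, Pool.Agent.Q246.RZ.tn_eq, Pool.Agent.Q246.RZ.tn_eq]
      refine Pool.Agent.TH813.Rank.finrank_range_le _ _ ?_
      intro D hD
      rw [LinearMap.mem_ker] at hD ⊢
      funext κ
      obtain ⟨i | i, o⟩ := κ
      · change (Pool.Agent.TH813.G.TM F).frm o D ((0 : Fin n → ℂ) i) = 0
        exact (Pool.Agent.TH813.G.TM F).frm_zero o D.2
      · exact congrFun hD ⟨i, o⟩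
    simp only [Finset.card_empty] at h1
    omega
  · have h0 : ∃ P : MvPolynomial (Fin N) ℚ, P.IsHomogeneous m ∧ eval a₀ P ≠ 0 ∧
        ∀ a : Fin N → ℚ, eval a P ≠ 0 → m ≤ td F T (comb y a) := by
      rw [htd] at h
      obtain ⟨P, h1, h2, h3⟩ := Pool.Agent.Q246.RZ.main S₀ y a₀ m h
      exact ⟨P, h1, h2, fun a ha => by rw [htd]; exact h3 a ha⟩
    refine ⟨h0, fun S => ?_⟩
    obtain ⟨P, h1, h2, h3⟩ := h0
    have hP : P ≠ 0 := by
      rintro rfl
      exact h2 (map_zero _)
    have h4 := Pool.Agent.Q246.ZeroOne.count P m h1 hP S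
    refine le_trans (Set.encard_le_encard (t := (((Fintype.piFinset fun _ : Fin N => S).filter
      fun a => eval a P = 0 : Finset (Fin N → ℚ)) : Set (Fin N → ℚ))) ?_) ?_
    · rintro a ⟨ha, hb⟩
      rw [Finset.mem_coe, Finset.mem_filter, Fintype.mem_piFinset]
      refine ⟨ha, ?_⟩
      by_contra hne
      exact absurd (h3 a hne) (not_le.2 hb)
    · rw [Set.encard_coe_eq_coe_finsetCard]
      exact_mod_cast h4
  · simp only [htd] at h ⊢
    exact Pool.Agent.Q246.RZ.lines S₀ z w m h S

end Pool.Agent.Q246.RZ.Parts
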